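import Mathlib
import Pool.Agent.Helper23_LAP.Stmts
import Pool.Agent.Helper23_LAP.Basic
import Pool.Agent.Helper33_LAP.Snk

/-!
# LAP module LAB: the samples exist (3.2)
-/

set_option autoImplicit false

namespace Pool.Agent.LAP.H47

open scoped Classical

theorem P_pos {k L q : ℕ} {D δ η r T Rr ζ : ℝ} {P P' : ℕ}
    (hp : Prm k L q D δ η r T Rr ζ P P') : 0 < P := by
  have h1 : (10 : ℝ) ^ 4 ≤ L := by exact_mod_cast hp.L4
  have h2 : (0 : ℝ) < (L : ℝ) ^ 19 := by positivity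
  have h3 := hp.P2
  have h4 := hp.D1
  rcases Nat.eq_zero_or_pos P with h | h
  · subst h
    simp only [Nat.cast_zero, mul_zero, zero_mul] at h3
    linarith
  · exact h

theorem Rr_le_P {k L q : ℕ} {D δ η r T Rr ζ : ℝ} {P P' : ℕ}
    (hp : Prm k L q D δ η r T Rr ζ P P') : Rr ≤ P := by
  have h1 : (10 : ℝ) ^ 4 ≤ L := by exact_mod_cast hp.L4
  have h2 : (1 : ℝ) ≤ (L : ℝ) ^ 4 := one_le_pow₀ (by linarith)
  have h3 := hp.R1
  have h4 := hp.R0
  nlinarith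

/-- The slots. -/
theorem exists_slot {α β : Type} {q P : ℕ} (hP : 0 < P) (R : Finset (α × β))
    (X : Fin q → Finset α) (Y : Fin q → Finset β)
    (h : ∀ a ∈ R, (Finset.univ.filter fun c => a.1 ∈ X c ∧ a.2 ∈ Y c).card ≤ P) :
    ∃ slot : Fin q → α × β → Fin P, Slot R X Y slot := by
  have : Nonempty (Fin P) := ⟨⟨0, hP⟩⟩
  have h1 : ∀ a : α × β, ∃ f : Fin q → Fin P, a ∈ R →
      ∀ c d, a.1 ∈ X c → a.2 ∈ Y c → a.1 ∈ X d → a.2 ∈ Y d → f c = f d → c = d := by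
    intro a
    by_cases ha : a ∈ R
    · have h2 : Fintype.card {c : Fin q // a.1 ∈ X c ∧ a.2 ∈ Y c} ≤ Fintype.card (Fin P) := by
        rw [Fintype.card_subtype, Fintype.card_fin]
        refine le_trans (le_of_eq ?_) (h a ha)
        congr!
      obtain ⟨g⟩ := Function.Embedding.nonempty_of_card_le h2
      refine ⟨fun c => if hc : a.1 ∈ X c ∧ a.2 ∈ Y c then g ⟨c, hc⟩ else ⟨0, hP⟩,
        fun _ c d h1 h2 h3 h4 h5 => ?_⟩
      have h5 : (if hc : a.1 ∈ X c ∧ a.2 ∈ Y c then g ⟨c, hc⟩ else ⟨0, hP⟩) =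
        (if hc : a.1 ∈ X d ∧ a.2 ∈ Y d then g ⟨d, hc⟩ else ⟨0, hP⟩) := h5
      rw [dif_pos (⟨h1, h2⟩ : a.1 ∈ X c ∧ a.2 ∈ Y c),
        dif_pos (⟨h3, h4⟩ : a.1 ∈ X d ∧ a.2 ∈ Y d)] at h5
      exact congrArg Subtype.val (g.injective h5)
    · exact ⟨fun _ => ⟨0, hP⟩, fun h => absurd h ha⟩
  choose f hf using h1
  exact ⟨fun c a => f a c, fun a ha c d h1 h2 h3 h4 h5 => hf a ha c d h1 h2 h3 h4 h5⟩

theorem locM_card {α β : Type} (E : Finset (α × β)) (u : α × β) : (locM E u).card ≤ 4 := by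
  unfold locM
  split_ifs <;> simp

theorem locM_deg {α β : Type} [Fintype α] [Fintype β] (E : Finset (α × β)) (k : ℕ)
    (hE : Reg E k) (w : α ⊕ β) :
    (Finset.univ.filter fun u : α × β => w ∈ locM E u).card ≤ k := by
  rcases w with x | y
  · have h1 : (Finset.univ.filter fun u : α × β => Sum.inl x ∈ locM E u) ⊆
        (out E x).image fun y => (x, y) := by
      intro u hu
      have hu := (Finset.mem_filter.1 hu).2
      unfold locM at hu
      split_ifs at hu with h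
      · rw [Finset.mem_singleton] at hu
        have hx : x = u.1 := by simpa using hu
        refine Finset.mem_image.2 ⟨u.2, ?_, ?_⟩
        · rw [mem_out, hx]; exact h
        · rw [hx]
      · simp at hu
    exact (Finset.card_le_card h1).trans (Finset.card_image_le.trans (hE.1 x).le)
  · have h1 : (Finset.univ.filter fun u : α × β => (Sum.inr y : α ⊕ β) ∈ locM E u) = ∅ := by
      ext u
      simp only [Finset.mem_filter, Finset.mem_univ, true_and, Finset.notMem_empty, iff_false]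
      unfold locM
      split_ifs <;> simp
    rw [h1]
    simp

theorem lab (hSLL : SLLStmt) (h1 : LB1Stmt) (h2 : LB2Stmt) (h3 : LB3Stmt) (h4 : LB4Stmt)
    (h5 : LB5Stmt) (hH : HEVStmt) : LABStmt := by
  intro k L q D δ η r T Rr ζ P P' hp α β _ _ E R X Y X' Y' F hE hSt hSnk hF
  have hPpos := P_pos hp
  have : Nonempty (Fin P) := ⟨⟨0, hPpos⟩⟩
  have hk2 := H33.k_ge hp
  obtain ⟨slot, hslot⟩ := exists_slot hPpos R X Y (fun a ha => by
    have := (hSt.rl a ha).trans (Rr_le_P hp)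
    exact_mod_cast this)
  have e1 := fun c => h1 k L q D δ η r T Rr ζ P P' hp α β E R X Y slot hSt.cl hSt.rl c
  have e2 := fun c => h2 k L q D δ η r T Rr ζ P P' hp α β E R X Y slot hSt.cl c
  have e3 := fun c => h3 k L q D δ η r T Rr ζ P P' hp α β E R X Y slot hSt.cl hSt.rl c
  have e4 := fun c => h4 k L q D δ η r T Rr ζ P P' hp α β E R (F c) (X c) (Y c) (slot c)
    (hSt.cl c).sub
  have e5 := fun c => h5 k L q D δ η r T Rr ζ P P' hp α β E R (F c) (X c) (Y c) (slot c)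
    (hSt.cl c).sub
  let Ω : Type := α × β → Fin P
  let B1 : Fin q → Finset (α ⊕ β) → Set Ω := fun c Q => {ω | ¬
    (((crs R (X c) (Y c) (clA E (L ^ 2) Q) (clB E (L ^ 2) Q) ∩
      allS (smO R X Y slot ω)).card : ℝ) ≤
      1 / (L : ℝ) ^ 4 * cq E R (X c) (Y c) L Q + (L : ℝ) ^ 2 * Q.card)}
  let B2 : Fin q → Finset (α ⊕ β) → Set Ω := fun c Q => {ω | ¬
    (((crs R (X c) (Y c) (clA E (L ^ 2) Q) (clB E (L ^ 2) Q) ∩
      smO R X Y slot ω c).card : ℝ) ≤
      4 * (L : ℝ) ^ 5 / D * cq E R (X c) (Y c) L Q + (L : ℝ) ^ 2 * Q.card)}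
  let B3 : Fin q → α ⊕ β → Set Ω := fun c w => Sum.elim
    (fun x => {ω : Ω | ¬
      (((out (R ∩ allS (smO R X Y slot ω)) x ∩ Y c).card : ℝ) ≤ 1 / (L : ℝ) ^ 4 * D)})
    (fun y => {ω : Ω | ¬
      (((inn (R ∩ allS (smO R X Y slot ω)) y ∩ X c).card : ℝ) ≤ 1 / (L : ℝ) ^ 4 * D)}) w
  let B4 : Fin q → Finset (α ⊕ β) → Finset (α ⊕ β) → Set Ω := fun c Q Δ =>
    {ω | Hev E R (F c) (X c) (Y c) L D Q Δ ∧
      ∀ a ∈ hO R (F c) (dA E L (X c) Q Δ) (Y c) (dB E L (Y c) Q Δ), ω a ≠ slot c a}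
  let B5 : Fin q → Finset (α ⊕ β) → Finset (α ⊕ β) → Set Ω := fun c Q Δ =>
    {ω | Hev (tr E) (tr R) (tr (F c)) (Y c) (X c) L D (sw Q) (sw Δ) ∧
      ∀ a ∈ hO (tr R) (tr (F c)) (dA (tr E) L (Y c) (sw Q) (sw Δ)) (X c)
        (dB (tr E) L (X c) (sw Q) (sw Δ)), ω a.swap ≠ slot c a.swap}
  let Bad : Fin q × Fin 5 → Finset (α ⊕ β) → Finset (α ⊕ β) → Set Ω := fun j Q Δ =>
    match j with
    | (c, 0) => H33.lift2 (sadj E) (B1 c) Q Δ
    | (c, 1) => H33.lift2 (sadj E) (B2 c) Q Δ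
    | (c, 2) => H33.lift1 (B3 c) Q Δ
    | (c, 3) => B4 c Q Δ
    | (c, 4) => B5 c Q Δ
  have hBad : ∀ j Q Δ, Ev (sadj E) L (locM E) (Bad j Q Δ) (Q ∪ Δ) := by
    intro j Q Δ
    match j with
    | (c, 0) => exact H33.ev_lift2 (fun Q hQ => e1 c Q hQ) Q Δ
    | (c, 1) => exact H33.ev_lift2 (fun Q hQ => e2 c Q hQ) Q Δ
    | (c, 2) =>
      refine H33.ev_lift1 (fun w => ?_) Q Δ
      rcases w with x | y
      · exact (e3 c).1 x
      · exact (e3 c).2 y
    | (c, 3) =>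
      show Ev (sadj E) L (locM E) (B4 c Q Δ) (Q ∪ Δ)
      by_cases hv : Hev E R (F c) (X c) (Y c) L D Q Δ
      · have : B4 c Q Δ = {ω : Ω | ∀ a ∈ hO R (F c) (dA E L (X c) Q Δ) (Y c)
            (dB E L (Y c) Q Δ), ω a ≠ slot c a} := by
          ext ω
          exact ⟨fun h => h.2, fun h => ⟨hv, h⟩⟩
        rw [this]
        exact e4 c Q Δ hv
      · left
        ext ω
        exact ⟨fun h => hv h.1, fun h => h.elim⟩
    | (c, 4) =>
      show Ev (sadj E) L (locM E) (B5 c Q Δ) (Q ∪ Δ)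
      by_cases hv : Hev (tr E) (tr R) (tr (F c)) (Y c) (X c) L D (sw Q) (sw Δ)
      · have : B5 c Q Δ = {ω : Ω | ∀ a ∈ hO (tr R) (tr (F c))
            (dA (tr E) L (Y c) (sw Q) (sw Δ)) (X c)
            (dB (tr E) L (X c) (sw Q) (sw Δ)), ω a.swap ≠ slot c a.swap} := by
          ext ω
          exact ⟨fun h => h.2, fun h => ⟨hv, h⟩⟩
        rw [this]
        have h6 := e5 c (sw Q) (sw Δ) hv
        have h7 : (sw Q).image Sum.swap = Q := sw_sw Q
        have h8 : (sw Δ).image Sum.swap = Δ := sw_sw Δ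
        rw [h7, h8] at h6
        exact h6
      · left
        ext ω
        exact ⟨fun h => hv h.1, fun h => h.elim⟩
  obtain ⟨ω, hω⟩ := hSLL (α ⊕ β) (α × β) (Fin P) (Fin q × Fin 5) (sadj E)
    k L (locM E) Bad (sadj_symm E) (H33.sadj_deg E k hE) hk2 hp.L4 hp.k2
    (locM_card E)
    (fun w => by
      refine le_trans (le_of_eq ?_) ((locM_deg E k hE w).trans
        (Nat.le_self_pow (n := 5) (by norm_num) k))
      congr!)
    (by
      have h5 : Fintype.card (Fin q × Fin 5) = q * 5 := by simp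
      rw [h5]
      have hq := hp.q1
      calc q * 5 ≤ k * 5 := by omega
        _ ≤ 2 * 2 * 2 * k := by omega
        _ ≤ k * k * k * k := by gcongr
        _ = k ^ 4 := by ring)
    (fun j Q Δ => by convert hBad j Q Δ)
  have hsmO : ∀ c, ∀ a ∈ smO R X Y slot ω c, a ∈ R ∧ (a.1 ∈ X c ∧ a.2 ∈ Y c) ∧ ω a = slot c a :=
    fun c a ha => (Finset.mem_filter.1 ha)
  refine ⟨smO R X Y slot ω, ?_⟩
  refine ⟨?_, ?_, ?_, ?_, ?_, ?_⟩
  · intro c a ha
    have := hsmO c a ha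
    exact ⟨this.1, this.2.1.1, this.2.1.2⟩
  · intro c d hcd
    rw [Finset.disjoint_left]
    intro a ha hb
    have ha := hsmO c a ha
    have hb := hsmO d a hb
    exact hcd (hslot a ha.1 c d ha.2.1.1 ha.2.1.2 hb.2.1.1 hb.2.1.2 (ha.2.2.symm.trans hb.2.2))
  · intro c Q hQ
    by_contra h
    exact hω (c, 0) Q ∅ ⟨rfl, hQ, h⟩
  · intro c Q hQ
    by_contra h
    exact hω (c, 1) Q ∅ ⟨rfl, hQ, h⟩
  · intro c
    constructor
    · intro x
      by_contra h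
      exact hω (c, 2) {Sum.inl x} ∅ ⟨rfl, Sum.inl x, rfl, h⟩
    · intro y
      by_contra h
      exact hω (c, 2) {Sum.inr y} ∅ ⟨rfl, Sum.inr y, rfl, h⟩
  · intro c
    constructor
    · intro A B hA hAX hB hAB hcon
      obtain ⟨Q, Δ, hAe, hBe, hv⟩ := hH k L q D δ η r T Rr ζ P P' hp α β E R (F c) (X c) (X' c)
        (Y c) (hSt.cl c) (hSt.hh c) (hSnk.sx c) (hSnk.k3 c).2 (hF c) A hA hAX B hB hAB hcon
      have h6 := hω (c, 3) Q Δ
      have h7 : ∃ a ∈ hO R (F c) (dA E L (X c) Q Δ) (Y c) (dB E L (Y c) Q Δ), ω a = slot c a := by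
        by_contra h8
        push_neg at h8
        exact h6 ⟨hv, h8⟩
      obtain ⟨a, ha, haω⟩ := h7
      rw [← hAe, ← hBe] at ha
      have ha := Finset.mem_filter.1 ha
      exact ⟨a, Finset.mem_filter.2 ⟨ha.1, ⟨hA ha.2.2.1, ha.2.2.2.1⟩, haω⟩, ha.2.1, ha.2.2.1,
        ha.2.2.2.1, ha.2.2.2.2⟩
    · intro A B hA hAX hB hAB hcon
      obtain ⟨Q, Δ, hAe, hBe, hv⟩ := hH k L q D δ η r T Rr ζ P P' hp β α (tr E) (tr R) (tr (F c))
        (Y c) (Y' c) (X c) (hSt.cl c).tr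
        (fun Q hQ => by
          have h8 := hSt.hh c (sw Q) (by simpa using Lnk_sw hQ)
          simpa using h8.tr)
        (hSnk.sy c) (fun y => by rw [inn_tr]; exact (hSnk.k3 c).1 y) (hF c).tr A hA hAX B hB hAB
        hcon
      have h6 := hω (c, 4) (sw Q) (sw Δ)
      have h7 : ∃ a ∈ hO (tr R) (tr (F c)) (dA (tr E) L (Y c) Q Δ) (X c)
          (dB (tr E) L (X c) Q Δ), ω a.swap = slot c a.swap := by
        by_contra h8
        push_neg at h8
        refine h6 ⟨?_, ?_⟩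
        · rw [sw_sw, sw_sw]
          exact hv
        · rw [sw_sw, sw_sw]
          exact h8
      obtain ⟨a, ha, haω⟩ := h7
      rw [← hAe, ← hBe] at ha
      have ha := Finset.mem_filter.1 ha
      refine ⟨a, ?_, ha.2.1, ha.2.2.1, ha.2.2.2.1, ha.2.2.2.2⟩
      rw [mem_tr]
      refine Finset.mem_filter.2 ⟨?_, ⟨?_, ?_⟩, haω⟩
      · have := ha.1
        rwa [mem_tr] at this
      · exact ha.2.2.2.1
      · exact hA ha.2.2.1

end Pool.Agent.LAP.H47
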