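import Pool.Agent.Helper23_LAP.Stmts
import Pool.Agent.Helper23_LAP.Basic

set_option autoImplicit false

namespace Pool.Agent.LAP.H47

open scoped Classical

theorem one_add_pow_le_three (L i : ℕ) (hL : 1 ≤ L) (hi : i ≤ L) :
    (1 + 1 / (L : ℝ)) ^ i ≤ 3 := by
  have hl0 : (0 : ℝ) < L := by exact_mod_cast hL
  have h1 : 1 + 1 / (L : ℝ) ≤ Real.exp (1 / (L : ℝ)) := by
    have := Real.add_one_le_exp (1 / (L : ℝ))
    linarith
  calc (1 + 1 / (L : ℝ)) ^ i ≤ (1 + 1 / (L : ℝ)) ^ L := by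
        apply pow_le_pow_right₀ _ hi
        have : (0 : ℝ) ≤ 1 / (L : ℝ) := by positivity
        linarith
    _ ≤ (Real.exp (1 / (L : ℝ))) ^ L := pow_le_pow_left₀ (by positivity) h1 L
    _ = Real.exp 1 := by
        rw [← Real.exp_nat_mul]
        congr 1
        field_simp
    _ ≤ 3 := by
        have := Real.exp_one_lt_d9
        linarith

theorem prm : PRMStmt := by
  intro k L q i hL hk hq hi hD
  have hl : (10 : ℝ) ^ 4 ≤ (L : ℝ) := by exact_mod_cast hL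
  have hl0 : (0 : ℝ) < L := by nlinarith
  have hi' : (i : ℝ) ≤ L := by exact_mod_cast hi
  have hi0 : (0 : ℝ) ≤ i := Nat.cast_nonneg i
  have hL1 : 1 ≤ L := le_trans (by norm_num) hL
  have h3 := one_add_pow_le_three L i hL1 hi
  have h30 : 0 < (1 + 1 / (L : ℝ)) ^ i := by positivity
  have hq' : (q : ℝ) * (L : ℝ) ^ 16 ≤ k := by exact_mod_cast hq
  have hq0 : (0 : ℝ) ≤ q := Nat.cast_nonneg q
  have hk0 : (0 : ℝ) ≤ k := Nat.cast_nonneg k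
  have h2i : (1 : ℝ) ≤ (2 : ℝ) ^ i := one_le_pow₀ (by norm_num)
  have h2i0 : (0 : ℝ) < (2 : ℝ) ^ i := by positivity
  obtain ⟨D, hDD⟩ : ∃ D : ℝ, D = pD k i := ⟨_, rfl⟩
  rw [← hDD] at hD ⊢
  have hD0 : 0 < D := lt_of_lt_of_le (by positivity) hD
  have hDk : D ≤ k := by
    rw [hDD]; unfold pD
    exact div_le_self hk0 h2i
  have hDk' : D * 2 ^ i = k := by
    rw [hDD]; unfold pD
    field_simp
  -- powers of L
  have hL2 : (10 : ℝ) ^ 8 ≤ (L : ℝ) ^ 2 := by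
    calc (10 : ℝ) ^ 8 = (10 ^ 4) ^ 2 := by norm_num
      _ ≤ (L : ℝ) ^ 2 := pow_le_pow_left₀ (by norm_num) hl 2
  have hL4 : (10 : ℝ) ^ 16 ≤ (L : ℝ) ^ 4 := by
    calc (10 : ℝ) ^ 16 = (10 ^ 4) ^ 4 := by norm_num
      _ ≤ (L : ℝ) ^ 4 := pow_le_pow_left₀ (by norm_num) hl 4
  have hL13 : (5 : ℝ) ≤ (L : ℝ) ^ 13 := by
    calc (5 : ℝ) ≤ (10 ^ 4) ^ 13 := by norm_num
      _ ≤ (L : ℝ) ^ 13 := pow_le_pow_left₀ (by norm_num) hl 13
  obtain ⟨K, hK⟩ : ∃ K : ℝ, K = 252 * (L : ℝ) ^ 13 + 5 := ⟨_, rfl⟩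
  have hK0 : 0 < K := by rw [hK]; positivity
  have hKL : K ≤ 253 * (L : ℝ) ^ 13 := by rw [hK]; linarith
  have hR : pR L i = i * K := by unfold pR; rw [hK]
  have hR0 : 0 ≤ pR L i := by rw [hR]; positivity
  have hR14 : pR L i ≤ 253 * (L : ℝ) ^ 14 := by
    rw [hR]
    calc (i : ℝ) * K ≤ L * (253 * (L : ℝ) ^ 13) := mul_le_mul hi' hKL hK0.le hl0.le
      _ = 253 * (L : ℝ) ^ 14 := by ring
  have h1415 : 10 ^ 4 * (L : ℝ) ^ 14 ≤ (L : ℝ) ^ 15 := by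
    calc 10 ^ 4 * (L : ℝ) ^ 14 ≤ L * (L : ℝ) ^ 14 := mul_le_mul_of_nonneg_right hl (by positivity)
      _ = (L : ℝ) ^ 15 := by ring
  have h1314 : (L : ℝ) ^ 13 ≤ (L : ℝ) ^ 14 := by
    calc (L : ℝ) ^ 13 = 1 * (L : ℝ) ^ 13 := by ring
      _ ≤ L * (L : ℝ) ^ 13 := mul_le_mul_of_nonneg_right (by linarith) (by positivity)
      _ = (L : ℝ) ^ 14 := by ring
  have h140 : (0 : ℝ) < (L : ℝ) ^ 14 := by positivity
  have h5 : 5 / (L : ℝ) ^ 2 ≤ 1 := by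
    rw [div_le_one (by positivity)]
    linarith
  have h50 : 0 ≤ 5 / (L : ℝ) ^ 2 := by positivity
  have hz0 : 0 < pz L i := by
    unfold pz
    positivity
  have hz15 : pz L i ≤ (L : ℝ) ^ 15 := by
    unfold pz
    have a : pR L i + 252 * (L : ℝ) ^ 13 + 5 ≤ 506 * (L : ℝ) ^ 14 := by linarith
    have a0 : 0 ≤ pR L i + 252 * (L : ℝ) ^ 13 + 5 := by positivity
    calc (1 + 5 / (L : ℝ) ^ 2) * (pR L i + 252 * (L : ℝ) ^ 13 + 5) ≤
          2 * (506 * (L : ℝ) ^ 14) := mul_le_mul (by linarith) a a0 (by norm_num)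
      _ ≤ (L : ℝ) ^ 15 := by linarith
  -- x = D / ζ, y = D / L^5
  obtain ⟨x, hx⟩ : ∃ x : ℝ, x = D / pz L i := ⟨_, rfl⟩
  have hxz : x * pz L i = D := by rw [hx]; field_simp
  have hx15 : D / (L : ℝ) ^ 15 ≤ x := by
    rw [hx]
    exact div_le_div_of_nonneg_left hD0.le hz0 hz15
  have hx4 : (L : ℝ) ^ 4 ≤ x := by
    refine le_trans ?_ hx15
    rw [le_div_iff₀ (by positivity)]
    calc (L : ℝ) ^ 4 * (L : ℝ) ^ 15 = (L : ℝ) ^ 19 := by ring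
      _ ≤ D := hD
  have hx0 : 0 < x := lt_of_lt_of_le (by positivity) hx4
  have hS : ((pS k L i : ℕ) : ℝ) ≤ x := by
    unfold pS
    rw [← hDD, ← hx]
    exact Nat.floor_le hx0.le
  have hS' : x - 1 < ((pS k L i : ℕ) : ℝ) := by
    unfold pS
    rw [← hDD, ← hx]
    exact Nat.sub_one_lt_floor x
  obtain ⟨y, hy⟩ : ∃ y : ℝ, y = D / (L : ℝ) ^ 5 := ⟨_, rfl⟩
  have hy5 : y * (L : ℝ) ^ 5 = D := by rw [hy]; field_simp
  have hy14 : (L : ℝ) ^ 14 ≤ y := by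
    rw [hy, le_div_iff₀ (by positivity)]
    calc (L : ℝ) ^ 14 * (L : ℝ) ^ 5 = (L : ℝ) ^ 19 := by ring
      _ ≤ D := hD
  have hL14 : (10 : ℝ) ^ 4 ≤ (L : ℝ) ^ 14 := by
    calc (10 : ℝ) ^ 4 ≤ (10 ^ 4) ^ 14 := by norm_num
      _ ≤ (L : ℝ) ^ 14 := pow_le_pow_left₀ (by norm_num) hl 14
  have hy0 : 0 < y := lt_of_lt_of_le (by positivity) hy14
  have hP : ((pP k L i : ℕ) : ℝ) ≤ y := by
    unfold pP
    rw [← hDD, ← hy]
    exact Nat.floor_le hy0.le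
  have hP' : y - 1 < ((pP k L i : ℕ) : ℝ) := by
    unfold pP
    rw [← hDD, ← hy]
    exact Nat.sub_one_lt_floor y
  -- q
  have hq2 : (q : ℝ) / 2 ^ i ≤ D / (L : ℝ) ^ 16 := by
    rw [div_le_div_iff₀ h2i0 (by positivity), hDk']
    exact hq'
  have hq4 : (q : ℝ) / 4 ^ i ≤ D / (L : ℝ) ^ 16 := by
    refine le_trans ?_ hq2
    apply div_le_div_of_nonneg_left hq0 h2i0
    exact pow_le_pow_left₀ (by norm_num) (by norm_num) i
  have hq40 : 0 ≤ (q : ℝ) / 4 ^ i := by positivity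
  have hq20 : 0 ≤ (q : ℝ) / 2 ^ i := by positivity
  refine ⟨hL, hk, ?_, hD, hDk, ?_, ?_, ?_, ?_, hR0, ?_, ?_, hz15, ?_, ?_, ?_, ?_, ?_, ?_, ?_, ?_, ?_⟩
  · -- q ≤ k
    calc q = q * 1 := by ring
      _ ≤ q * L ^ 16 := Nat.mul_le_mul_left q (Nat.one_le_pow _ _ hL1)
      _ ≤ k := hq
  · unfold pd; positivity
  · unfold pd
    have : 8 * (i : ℝ) / (L : ℝ) ^ 4 * (L : ℝ) ^ 3 = 8 * (i / L) := by
      field_simp
    rw [this]
    have h : (i : ℝ) / L ≤ 1 := by rw [div_le_one hl0]; exact hi'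
    linarith
  · unfold pe; positivity
  · unfold pe
    have : 30 * (i : ℝ) / (L : ℝ) ^ 4 * (L : ℝ) ^ 3 = 30 * (i / L) := by
      field_simp
    rw [this]
    have h : (i : ℝ) / L ≤ 1 := by rw [div_le_one hl0]; exact hi'
    linarith
  · linarith
  · unfold pz
    exact le_refl _
  · -- P L^5 ≤ D
    rw [← hy5]
    exact mul_le_mul_of_nonneg_right hP (by positivity)
  · -- D ≤ 2 P L^5
    rw [← hy5]
    apply mul_le_mul_of_nonneg_right _ (by positivity)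
    linarith
  · -- P' ζ ≤ D
    calc ((pS k L i : ℕ) : ℝ) * pz L i ≤ x * pz L i := mul_le_mul_of_nonneg_right hS hz0.le
      _ = D := hxz
  · -- D ≤ (1+2/L^4) P' ζ
    have e : x ≤ (1 + 2 / (L : ℝ) ^ 4) * (pS k L i : ℕ) := by
      have e1 : (1 + 2 / (L : ℝ) ^ 4) * (x - 1) ≤ (1 + 2 / (L : ℝ) ^ 4) * (pS k L i : ℕ) :=
        mul_le_mul_of_nonneg_left hS'.le (by positivity)
      have e2 : (1 : ℝ) ≤ x / (L : ℝ) ^ 4 := by
        rw [le_div_iff₀ (by positivity)]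
        linarith
      have e3 : 2 / (L : ℝ) ^ 4 ≤ 1 := by
        rw [div_le_one (by positivity)]
        linarith
      have e4 : (1 + 2 / (L : ℝ) ^ 4) * (x - 1) =
          x + (2 * (x / (L : ℝ) ^ 4) - 1 - 2 / (L : ℝ) ^ 4) := by ring
      rw [e4] at e1
      linarith
    calc D = x * pz L i := hxz.symm
      _ ≤ (1 + 2 / (L : ℝ) ^ 4) * (pS k L i : ℕ) * pz L i :=
          mul_le_mul_of_nonneg_right e hz0.le
      _ = (1 + 2 / (L : ℝ) ^ 4) * ((pS k L i : ℕ) * pz L i) := by ring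
  · linarith
  · unfold pQ; positivity
  · -- 4 L^4 Q ≤ P
    unfold pQ
    have b1 : (1 + 1 / (L : ℝ)) ^ i * ((q : ℝ) / 4 ^ i + 4 * (L : ℝ) ^ 3) ≤
        3 * (D / (L : ℝ) ^ 16 + 4 * (L : ℝ) ^ 3) :=
      mul_le_mul h3 (by linarith) (by positivity) (by norm_num)
    have b2 : 4 * (L : ℝ) ^ 4 * (3 * (D / (L : ℝ) ^ 16 + 4 * (L : ℝ) ^ 3)) =
        12 * (y / (L : ℝ) ^ 7) + 48 * (L : ℝ) ^ 7 := by
      rw [hy]
      field_simp
      ring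
    have hL7 : (10 : ℝ) ^ 4 ≤ (L : ℝ) ^ 7 := by
      calc (10 : ℝ) ^ 4 ≤ (10 ^ 4) ^ 7 := by norm_num
        _ ≤ (L : ℝ) ^ 7 := pow_le_pow_left₀ (by norm_num) hl 7
    have b3 : y / (L : ℝ) ^ 7 ≤ y / 10 ^ 4 :=
      div_le_div_of_nonneg_left hy0.le (by norm_num) hL7
    have b4 : 10 ^ 4 * (L : ℝ) ^ 7 ≤ (L : ℝ) ^ 14 := by
      calc 10 ^ 4 * (L : ℝ) ^ 7 ≤ (L : ℝ) ^ 7 * (L : ℝ) ^ 7 :=
            mul_le_mul_of_nonneg_right hL7 (by positivity)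
        _ = (L : ℝ) ^ 14 := by ring
    calc 4 * (L : ℝ) ^ 4 * ((1 + 1 / (L : ℝ)) ^ i * ((q : ℝ) / 4 ^ i + 4 * (L : ℝ) ^ 3)) ≤
          4 * (L : ℝ) ^ 4 * (3 * (D / (L : ℝ) ^ 16 + 4 * (L : ℝ) ^ 3)) :=
          mul_le_mul_of_nonneg_left b1 (by positivity)
      _ = 12 * (y / (L : ℝ) ^ 7) + 48 * (L : ℝ) ^ 7 := b2
      _ ≤ (pP k L i : ℕ) := by linarith
  · unfold pT; positivity
  · -- T ≤ P'
    unfold pT
    have b1 : (1 + 1 / (L : ℝ)) ^ i * ((q : ℝ) / 2 ^ i + 2 * (L : ℝ) ^ 3) ≤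
        3 * (D / (L : ℝ) ^ 16 + 2 * (L : ℝ) ^ 3) :=
      mul_le_mul h3 (by linarith) (by positivity) (by norm_num)
    have b2 : D / (L : ℝ) ^ 16 = D / (L : ℝ) ^ 15 / L := by
      field_simp
    have b3 : D / (L : ℝ) ^ 15 / L ≤ x / 10 ^ 4 := by
      calc D / (L : ℝ) ^ 15 / L ≤ x / L := div_le_div_of_nonneg_right hx15 hl0.le
        _ ≤ x / 10 ^ 4 := div_le_div_of_nonneg_left hx0.le (by norm_num) hl
    have b4 : 10 ^ 4 * (L : ℝ) ^ 3 ≤ (L : ℝ) ^ 4 := by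
      calc 10 ^ 4 * (L : ℝ) ^ 3 ≤ L * (L : ℝ) ^ 3 :=
            mul_le_mul_of_nonneg_right hl (by positivity)
        _ = (L : ℝ) ^ 4 := by ring
    rw [b2] at b1
    linarith

end Pool.Agent.LAP.H47
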